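import Mathlib
import Pool.Agent.Q69.UDend
import Pool.Agent.Q69.SeqUM
import Pool.Agent.Q69.Phase

/-!
# MP_fd67f7_an: an uncountable DC2½ set without DC2 pairs on a dendrite
-/

set_option autoImplicit false
open Filter Topology Set

namespace Pool.Agent.Results.MP_fd67f7_an.NoDC2Pair

open Q69UDend

section defs

variable {X : Type} [MetricSpace X]

open Classical in
/-- `#{0 ≤ k ≤ n : d(f^k x, f^k y) < δ}` -/
noncomputable def cnt (f : X → X) (x y : X) (δ : ℝ) (n : ℕ) : ℕ :=
  ((Finset.range (n + 1)).filter fun k => dist (f^[k] x) (f^[k] y) < δ).card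

/-- `Φ_{xy}(δ)` -/
noncomputable def Phi (f : X → X) (x y : X) (δ : ℝ) : ℝ :=
  liminf (fun n : ℕ => (cnt f x y δ n : ℝ) / n) atTop

/-- `Φ*_{xy}(δ)` -/
noncomputable def PhiStar (f : X → X) (x y : X) (δ : ℝ) : ℝ :=
  limsup (fun n : ℕ => (cnt f x y δ n : ℝ) / n) atTop

/-- DC2 pairs -/
def IsDC2Pair (f : X → X) (x y : X) : Prop :=
  x ≠ y ∧ (∀ δ, 0 < δ → δ ≤ Metric.diam (univ : Set X) → PhiStar f x y δ = 1) ∧
    ∃ ε, 0 < ε ∧ ε ≤ Metric.diam (univ : Set X) ∧ Phi f x y ε < 1

/-- DC2½ pairs: `Φ_{xy}(0) < Φ*_{xy}(0)`, the values at `0` being the limits at `0+` -/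
def IsDC25Pair (f : X → X) (x y : X) : Prop :=
  x ≠ y ∧ ∃ a b : ℝ, Tendsto (Phi f x y) (𝓝[>] 0) (𝓝 a) ∧
    Tendsto (PhiStar f x y) (𝓝[>] 0) (𝓝 b) ∧ a < b

end defs

open Q69Dens Q69Phase Q69Seq

/-! ### Frequencies -/

/-- the frequency function -/
noncomputable def fr (A : ℕ → Prop) (n : ℕ) : ℝ := (ct A (n + 1) : ℝ) / n

lemma fr_nonneg (A : ℕ → Prop) (n : ℕ) : 0 ≤ fr A n := by unfold fr; positivity

lemma fr_le (A : ℕ → Prop) (n : ℕ) : fr A n ≤ 2 := by
  unfold fr
  rcases Nat.eq_zero_or_pos n with h | h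
  · subst h; simp
  · have hn : (0 : ℝ) < n := by exact_mod_cast h
    rw [div_le_iff₀ hn]
    have : ct A (n + 1) ≤ 2 * n := (ct_le A (n + 1)).trans (by omega)
    exact_mod_cast this

lemma bdd_le (A : ℕ → Prop) : IsBoundedUnder (· ≤ ·) atTop (fr A) :=
  isBoundedUnder_of ⟨2, fr_le A⟩

lemma bdd_ge (A : ℕ → Prop) : IsBoundedUnder (· ≥ ·) atTop (fr A) :=
  isBoundedUnder_of ⟨0, fr_nonneg A⟩

lemma cobdd_le (A : ℕ → Prop) : IsCoboundedUnder (· ≤ ·) atTop (fr A) :=
  (bdd_ge A).isCoboundedUnder_le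

lemma cobdd_ge (A : ℕ → Prop) : IsCoboundedUnder (· ≥ ·) atTop (fr A) :=
  (bdd_le A).isCoboundedUnder_ge

lemma limsup_le {A : ℕ → Prop} {a : ℝ} (h : ∀ᶠ n in atTop, fr A n ≤ a) :
    limsup (fr A) atTop ≤ a := limsup_le_of_le (cobdd_le A) h

lemma le_liminf {A : ℕ → Prop} {a : ℝ} (h : ∀ᶠ n in atTop, a ≤ fr A n) :
    a ≤ liminf (fr A) atTop := le_liminf_of_le (cobdd_ge A) h

lemma le_limsup {A : ℕ → Prop} {a : ℝ} (h : ∃ᶠ n in atTop, a ≤ fr A n) :
    a ≤ limsup (fr A) atTop := le_limsup_of_frequently_le h (bdd_le A)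

lemma liminf_le {A : ℕ → Prop} {a : ℝ} (h : ∃ᶠ n in atTop, fr A n ≤ a) :
    liminf (fr A) atTop ≤ a := liminf_le_of_frequently_le h (bdd_ge A)

lemma limsup_lt_one {A : ℕ → Prop} (h : PL fun n => ¬ A n) : limsup (fr A) atTop < 1 := by
  obtain ⟨c, hc, hT⟩ := h
  refine lt_of_le_of_lt (limsup_le (a := 1 - c / 2) ?_) (by linarith)
  obtain ⟨M, hM⟩ := exists_nat_ge (1 / (c / 2))
  filter_upwards [(tendsto_add_atTop_nat 1).eventually hT, eventually_ge_atTop (M + 1)] with n h1 h2
  have hn : (0 : ℝ) < n := by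
    have : 0 < n := by omega
    exact_mod_cast this
  have h3 : (ct A (n + 1) : ℝ) + ct (fun k => ¬ A k) (n + 1) = n + 1 := by
    exact_mod_cast ct_not A (n + 1)
  unfold fr
  rw [div_le_iff₀ hn]
  have h4 : (M : ℝ) ≤ n := by
    have : M ≤ n := by omega
    exact_mod_cast this
  rw [div_le_iff₀ (by positivity)] at hM
  push_cast at h1
  nlinarith

lemma one_le_liminf {A : ℕ → Prop} (h : Z fun n => ¬ A n) : 1 ≤ liminf (fr A) atTop := by
  apply le_of_forall_pos_le_add
  intro ε hε
  have : 1 - ε ≤ liminf (fr A) atTop := by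
    apply le_liminf
    filter_upwards [(tendsto_add_atTop_nat 1).eventually (h ε hε), eventually_ge_atTop 1]
      with n h1 h2
    have hn : (0 : ℝ) < n := by exact_mod_cast h2
    have h3 : (ct A (n + 1) : ℝ) + ct (fun k => ¬ A k) (n + 1) = n + 1 := by
      exact_mod_cast ct_not A (n + 1)
    unfold fr
    rw [le_div_iff₀ hn]
    push_cast at h1
    have h4 : (ct A (n + 1) : ℝ) ≥ (1 - ε) * (n + 1) := by linarith
    by_cases hε1 : ε ≤ 1
    · nlinarith
    · have : (0 : ℝ) ≤ ct A (n + 1) := Nat.cast_nonneg _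
      nlinarith
  linarith

/-! ### The space of sequences -/

/-- `N = n` -/
def Tm (z : ℕ → Bool × Bool) (n : ℕ) : Prop := (z n).1 = false ∧ ∀ m < n, (z m).1 = true

/-- the space -/
def Y : Set (ℕ → Bool × Bool) := {z | (∀ k, (z (k + 1)).1 = true → (z k).1 = true) ∧
  (∀ n, Tm z n → ∀ i j, g (n + i) = g (n + j) → (z i).2 = (z j).2) ∧
  (∀ n, Tm z n → ∀ i, g (n + i) = none → (z i).2 = false) ∧
  (∀ i j k, i < j → j < k → (z i).2 ≠ (z j).2 → (z j).2 ≠ (z k).2 → (z (4 ^ k)).1 = false)}

/-- finite type -/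
def Fin' (z : ℕ → Bool × Bool) : Prop := ∃ (n : ℕ) (c : Option ℕ → Bool), c none = false ∧
  (∀ k, (z k).1 = decide (k < n)) ∧ ∀ i, (z i).2 = c (g (n + i))

/-- infinite type -/
def Inf' (z : ℕ → Bool × Bool) : Prop := (∀ k, (z k).1 = true) ∧
  ∀ i j k, i < j → j < k → (z i).2 ≠ (z j).2 → (z j).2 ≠ (z k).2 → False

lemma Y_cases {z : ℕ → Bool × Bool} (hz : z ∈ Y) : Fin' z ∨ Inf' z := by
  classical
  obtain ⟨h1, h2, h3, h4⟩ := hz
  by_cases h : ∃ n, (z n).1 = false
  · left
    set n := Nat.find h with hn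
    have hn1 : (z n).1 = false := Nat.find_spec h
    have hn2 : ∀ m < n, (z m).1 = true := fun m hm => by
      have := Nat.find_min h hm
      simpa using this
    have hn3 : ∀ m, n ≤ m → (z m).1 = false := by
      intro m hm
      induction m, hm using Nat.le_induction with
      | base => exact hn1
      | succ m _ ih =>
        by_contra hcon
        have := h1 m (by simpa using hcon)
        rw [ih] at this
        exact absurd this (by decide)
    have hT : Tm z n := ⟨hn1, hn2⟩
    refine ⟨n, fun o => if ho : ∃ i, g (n + i) = o then (z ho.choose).2 else false, ?_, ?_, ?_⟩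
    · beta_reduce
      split_ifs with ho
      · exact h3 n hT _ ho.choose_spec
      · rfl
    · intro k
      by_cases hk : k < n
      · rw [hn2 k hk, decide_eq_true hk]
      · rw [hn3 k (by omega), decide_eq_false hk]
    · intro i
      have ho : ∃ i', g (n + i') = g (n + i) := ⟨i, rfl⟩
      beta_reduce
      rw [dif_pos ho]
      exact h2 n hT _ _ ho.choose_spec.symm
  · right
    push Not at h
    have ht : ∀ k, (z k).1 = true := fun k => by simpa using h k
    refine ⟨ht, fun i j k hij hjk e1 e2 => ?_⟩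
    have := h4 i j k hij hjk e1 e2
    rw [ht] at this
    exact absurd this (by decide)

lemma exists_change {a b : ℕ} (hab : a ≤ b) (h : g a ≠ g b) :
    ∃ m, a ≤ m ∧ m < b ∧ g (m + 1) ≠ g m := by
  by_contra hcon
  push Not at hcon
  apply h
  induction b, hab using Nat.le_induction with
  | base => rfl
  | succ b hab ih =>
    by_cases he : g a = g b
    · rw [he]; exact (hcon b hab (by omega)).symm
    · exact absurd (ih he fun m h1 h2 => hcon m h1 (by omega)) he

lemma Y_fin {z : ℕ → Bool × Bool} (hz : Fin' z) : z ∈ Y := by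
  obtain ⟨n, c, hc, ht, hx⟩ := hz
  have hTm : ∀ m, Tm z m → m = n := by
    rintro m ⟨a, b⟩
    rw [ht] at a
    have a' : ¬ m < n := by simpa using a
    by_contra hne
    have := b n (by omega)
    rw [ht] at this
    simp at this
  refine ⟨fun k hk => ?_, fun m hm i j hij => ?_, fun m hm i hi => ?_, ?_⟩
  · rw [ht] at hk ⊢
    have : k + 1 < n := by simpa using hk
    simpa using (by omega : k < n)
  · rw [hTm m hm] at hij
    rw [hx, hx, hij]
  · rw [hTm m hm] at hi
    rw [hx, hi, hc]
  · intro i j k hij hjk e1 e2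
    rw [ht]
    by_contra hcon
    have hn : 4 ^ k < n := by simpa using hcon
    rw [hx, hx] at e1 e2
    obtain ⟨m1, a1, b1, c1⟩ := exists_change (a := n + i) (b := n + j) (by omega)
      (fun h => e1 (by rw [h]))
    obtain ⟨m2, a2, b2, c2⟩ := exists_change (a := n + j) (b := n + k) (by omega)
      (fun h => e2 (by rw [h]))
    have d1 := change (k := k) (by omega) c1
    have d2 := change (k := k) (by omega) c2
    have d3 : 2 ^ k ∣ (m2 + 1) - (m1 + 1) := Nat.dvd_sub d2 d1
    have d4 := Nat.le_of_dvd (by omega) d3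
    have d5 : k < 2 ^ k := Nat.lt_two_pow_self
    omega

lemma Y_inf {z : ℕ → Bool × Bool} (hz : Inf' z) : z ∈ Y := by
  obtain ⟨ht, hx⟩ := hz
  have hTm : ∀ m, ¬ Tm z m := by
    rintro m ⟨a, -⟩
    rw [ht] at a
    exact absurd a (by decide)
  exact ⟨fun k _ => ht k, fun m hm => absurd hm (hTm m), fun m hm => absurd hm (hTm m),
    fun i j k hij hjk e1 e2 => (hx i j k hij hjk e1 e2).elim⟩

/-- the map -/
def G (z : ℕ → Bool × Bool) : ℕ → Bool × Bool :=
  fun k => (if k = 0 then true else (z (k - 1)).1, (z (k + 1)).2)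

lemma G_mem {z : ℕ → Bool × Bool} (hz : z ∈ Y) : G z ∈ Y := by
  rcases Y_cases hz with ⟨n, c, hc, ht, hx⟩ | ⟨ht, hx⟩
  · apply Y_fin
    refine ⟨n + 1, c, hc, fun k => ?_, fun i => ?_⟩
    · simp only [G]
      split_ifs with h
      · subst h; simp
      · rw [ht, decide_eq_decide]; omega
    · simp only [G]
      rw [hx]
      congr 2; ring
  · apply Y_inf
    refine ⟨fun k => ?_, fun i j k hij hjk e1 e2 => ?_⟩
    · simp only [G]
      split_ifs with h
      · rfl
      · exact ht _
    · exact hx (i + 1) (j + 1) (k + 1) (by omega) (by omega) e1 e2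

lemma G_iter2 (k i : ℕ) (z : ℕ → Bool × Bool) : (G^[k] z i).2 = (z (i + k)).2 := by
  induction k generalizing i with
  | zero => rfl
  | succ k ih =>
    rw [Function.iterate_succ_apply']
    change (G^[k] z (i + 1)).2 = _
    rw [ih]
    congr 2; ring

lemma G_iter1 {k i : ℕ} (z : ℕ → Bool × Bool) (h : i < k) : (G^[k] z i).1 = true := by
  induction k generalizing i with
  | zero => exact absurd h (Nat.not_lt_zero _)
  | succ k ih =>
    rw [Function.iterate_succ_apply']
    simp only [G]
    split_ifs with h0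
    · rfl
    · exact ih (by omega)

lemma Y_closed : IsClosed Y := by
  have hc : ∀ k, Continuous fun z : ℕ → Bool × Bool => (z k).1 := fun k =>
    continuous_fst.comp (continuous_apply k)
  have hc2 : ∀ k, Continuous fun z : ℕ → Bool × Bool => (z k).2 := fun k =>
    continuous_snd.comp (continuous_apply k)
  have op1 : ∀ k (b : Bool), IsClopen {z : ℕ → Bool × Bool | (z k).1 = b} := fun k b =>
    (isClopen_discrete {b}).preimage (hc k)
  have op2 : ∀ k (b : Bool), IsClopen {z : ℕ → Bool × Bool | (z k).2 = b} := fun k b =>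
    (isClopen_discrete {b}).preimage (hc2 k)
  have eq2 : ∀ i j, IsClopen {z : ℕ → Bool × Bool | (z i).2 = (z j).2} := fun i j =>
    (isClopen_discrete {p : Bool × Bool | p.1 = p.2}).preimage ((hc2 i).prodMk (hc2 j))
  have hTm : ∀ n, IsOpen {z : ℕ → Bool × Bool | Tm z n} := by
    intro n
    have : {z : ℕ → Bool × Bool | Tm z n} = {z | (z n).1 = false} ∩
        ⋂ m ∈ Finset.range n, {z | (z m).1 = true} := by
      ext z
      simp [Tm]
    rw [this]
    exact (op1 n false).isOpen.inter (isOpen_biInter_finset fun m _ => (op1 m true).isOpen)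
  have hY : Y = (⋂ k, {z | (z (k + 1)).1 = true → (z k).1 = true}) ∩
      ((⋂ n, ⋂ i, ⋂ j, {z | Tm z n → g (n + i) = g (n + j) → (z i).2 = (z j).2}) ∩
      ((⋂ n, ⋂ i, {z | Tm z n → g (n + i) = none → (z i).2 = false}) ∩
      (⋂ i, ⋂ j, ⋂ k, {z | i < j → j < k → (z i).2 ≠ (z j).2 → (z j).2 ≠ (z k).2 →
        (z (4 ^ k)).1 = false}))) := by
    ext z
    simp only [Y, mem_setOf_eq, mem_inter_iff, mem_iInter]
    constructor
    · rintro ⟨a, b, c, d⟩
      exact ⟨a, fun n i j hn => b n hn i j, fun n i hn => c n hn i, d⟩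
    · rintro ⟨a, b, c, d⟩
      exact ⟨a, fun n hn i j => b n i j hn, fun n hn i => c n i hn, d⟩
  rw [hY]
  refine IsClosed.inter (isClosed_iInter fun k => ?_) (IsClosed.inter
    (isClosed_iInter fun n => isClosed_iInter fun i => isClosed_iInter fun j => ?_)
    (IsClosed.inter (isClosed_iInter fun n => isClosed_iInter fun i => ?_)
    (isClosed_iInter fun i => isClosed_iInter fun j => isClosed_iInter fun k => ?_)))
  · exact isClosed_imp (op1 _ _).isOpen (op1 _ _).isClosed
  · exact isClosed_imp (hTm n) (isClosed_imp isOpen_const (eq2 _ _).isClosed)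
  · exact isClosed_imp (hTm n) (isClosed_imp isOpen_const (op2 _ _).isClosed)
  · refine isClosed_imp isOpen_const (isClosed_imp isOpen_const (isClosed_imp ?_
      (isClosed_imp ?_ (op1 _ _).isClosed)))
    · exact (eq2 i j).compl.isOpen
    · exact (eq2 j k).compl.isOpen

/-- the asymptotic code of a point -/
lemma code {z : ℕ → Bool × Bool} (hz : z ∈ Y) : ∃ (n : ℕ) (c : Option ℕ → Bool) (k₀ : ℕ),
    ∀ k, k₀ ≤ k → (z k).2 = c (g (k + n)) := by
  rcases Y_cases hz with ⟨n, c, -, -, hx⟩ | ⟨-, hx⟩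
  · exact ⟨n, c, 0, fun k _ => by rw [hx, add_comm]⟩
  · by_cases h : ∃ j, (z j).2 ≠ (z 0).2
    · obtain ⟨j, hj⟩ := h
      have hj0 : 0 < j := by
        rcases Nat.eq_zero_or_pos j with h | h
        · subst h; exact absurd rfl hj
        · exact h
      refine ⟨0, fun _ => (z j).2, j, fun k hk => ?_⟩
      rcases hk.eq_or_lt with h | h
      · rw [h]
      · by_contra hne
        exact hx 0 j k hj0 h hj.symm (Ne.symm hne)
    · push Not at h
      exact ⟨0, fun _ => (z 0).2, 0, fun k _ => h k⟩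

lemma window_of_le {L M k : ℕ} (h : ¬ ∃ i < M, g (k + i + 1) ≠ g (k + i)) (hL : L ≤ M) :
    g (k + L) = g k := const_window h L hL

/-- equal codes: the windows agree with density one; distinct codes: the first coordinates
differ on a set of positive lower density -/
lemma dichotomy {z z' : ℕ → Bool × Bool} (hz : z ∈ Y) (hz' : z' ∈ Y) :
    (∀ L : ℕ, Z fun k => ¬ ∀ i < L, (z (i + k)).2 = (z' (i + k)).2) ∨
    PL fun k => (z k).2 ≠ (z' k).2 := by
  obtain ⟨n, c, k₀, h⟩ := code hz
  obtain ⟨n', c', k₀', h'⟩ := code hz'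
  by_cases hcc : c = c'
  · left
    intro L
    refine (Z_window (L + n + n')).eventually (n₀ := max k₀ k₀') fun k hk hne => ?_
    by_contra hcon
    apply hne
    intro i hi
    rw [h _ (by have := le_max_left k₀ k₀'; omega), h' _ (by have := le_max_right k₀ k₀'; omega),
      ← hcc]
    have e1 := window_of_le (L := i + n) hcon (by omega)
    have e2 := window_of_le (L := i + n') hcon (by omega)
    rw [show i + k + n = k + (i + n) by ring, show i + k + n' = k + (i + n') by ring, e1, e2]
  · right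
    obtain ⟨o, ho⟩ : ∃ o, c o ≠ c' o := by
      by_contra hcon
      push Not at hcon
      exact hcc (funext hcon)
    refine (PL_g o).sub ((Z_window (n + n')).or (Z_finite (max k₀ k₀'))) fun k hk => ?_
    by_cases hb : k < max k₀ k₀'
    · exact Or.inr (Or.inr hb)
    by_cases hw : ∃ i < n + n', g (k + i + 1) ≠ g (k + i)
    · exact Or.inr (Or.inl hw)
    left
    rw [h _ (by have := le_max_left k₀ k₀'; omega), h' _ (by have := le_max_right k₀ k₀'; omega),
      window_of_le hw (by omega : n ≤ n + n'), window_of_le hw (by omega : n' ≤ n + n'), hk]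
    exact ho

/-- windows and distances -/
lemma ld_iter_le {z z' : ℕ → Bool × Bool} {L k : ℕ} (hk : L ≤ k) :
    ld (G^[k] z) (G^[k] z') ≤ (1 / 2) ^ L ↔ ∀ i < L, (z (i + k)).2 = (z' (i + k)).2 := by
  rw [ld_le_iff]
  constructor
  · intro h i hi
    have := congrArg Prod.snd (h i hi)
    rwa [G_iter2, G_iter2] at this
  · intro h i hi
    apply Prod.ext
    · rw [G_iter1 z (by omega), G_iter1 z' (by omega)]
    · rw [G_iter2, G_iter2]
      exact h i hi

/-! ### The pairs with an oscillating frequency -/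

/-- the point of the address `α` -/
def pt (α : ℕ → Bool) : ℕ → Bool × Bool := fun k =>
  (false, match g k with
    | none => false
    | some i => α i)

/-- the code of `α` -/
def cd (α : ℕ → Bool) : Option ℕ → Bool
  | none => false
  | some i => α i

lemma pt_snd (α : ℕ → Bool) (k : ℕ) : (pt α k).2 = cd α (g k) := by
  unfold pt cd
  cases g k <;> rfl

lemma pt_mem (α : ℕ → Bool) : pt α ∈ Y := by
  apply Y_fin
  refine ⟨0, cd α, rfl, fun k => ?_, fun i => ?_⟩
  · simp [pt]
  · rw [pt_snd, zero_add]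

lemma exists_g (o : Option ℕ) : ∃ n, g n = o := by
  obtain ⟨c, hc, h⟩ := PL_g o
  by_contra hcon
  push Not at hcon
  obtain ⟨T, hT, hT0⟩ := (h.and (eventually_ge_atTop 1)).exists
  have : ct (fun n => g n = o) T = 0 := by
    unfold ct
    simp [hcon]
  rw [this] at hT
  have : (0 : ℝ) < T := by exact_mod_cast hT0
  have : 0 < c * T := by positivity
  simp at hT
  linarith

lemma pt_injective : Function.Injective pt := by
  intro α β h
  funext i
  obtain ⟨n, hn⟩ := exists_g (some i)
  have := congrArg Prod.snd (congrFun h n)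
  rw [pt_snd, pt_snd, hn] at this
  exact this

lemma oscillate {α β : ℕ → Bool} (h : α ≠ β) {E : ℕ → Prop}
    (hE : ∀ k, E k ↔ (pt α k).2 ≠ (pt β k).2) :
    ∃ s : ℝ, 0 < s ∧ ∀ η > 0, (∃ᶠ T : ℕ in atTop, (ct E T : ℝ) ≤ (s + η) * T) ∧
      (∃ᶠ T : ℕ in atTop, 2 * (s - η) * T ≤ ct E T) := by
  obtain ⟨i, hi⟩ := Function.ne_iff.1 h
  have hPL : PL E := by
    refine (PL_some i).sub (Z_finite 0) fun k hk => Or.inl ?_
    rw [hE, pt_snd, pt_snd, hk]
    exact hi
  have hnone : ∀ n, g n = none → ¬ E n := by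
    intro n hn
    rw [hE, pt_snd, pt_snd, hn]
    simp [cd]
  set C : Set ℝ := {c | ∀ᶠ T : ℕ in atTop, c * T ≤ ct E T} with hC
  have hbdd : BddAbove C := by
    refine ⟨1, fun c hc => ?_⟩
    obtain ⟨T, hT, hT0⟩ := (hc.and (eventually_ge_atTop 1)).exists
    have h1 : (ct E T : ℝ) ≤ T := by exact_mod_cast ct_le E T
    have h2 : (0 : ℝ) < T := by exact_mod_cast hT0
    by_contra hcon
    push Not at hcon
    nlinarith
  obtain ⟨c, hc, hcT⟩ := hPL
  have hne : C.Nonempty := ⟨c, hcT⟩
  refine ⟨sSup C, hc.trans_le (le_csSup hbdd hcT), fun η hη => ⟨?_, ?_⟩⟩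
  · have hn : sSup C + η ∉ C := fun hm => by
      have := le_csSup hbdd hm
      linarith
    have hn' : ∃ᶠ T : ℕ in atTop, ¬ ((sSup C + η) * T ≤ ct E T) :=
      not_eventually.1 (show ¬ ∀ᶠ T : ℕ in atTop, (sSup C + η) * T ≤ ct E T from hn)
    exact hn'.mono fun T hT => (not_le.1 hT).le
  · obtain ⟨c', hc', hlt⟩ := exists_lt_of_lt_csSup hne (show sSup C - η < sSup C by linarith)
    have hev : ∀ᶠ k : ℕ in atTop, 2 * (sSup C - η) * (2 * 4 ^ k : ℕ) ≤ ct E (2 * 4 ^ k) := by
      have ht : Tendsto (fun k : ℕ => 4 ^ (k + 1)) atTop atTop :=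
        (tendsto_pow_atTop_atTop_of_one_lt (by norm_num)).comp (tendsto_add_atTop_nat 1)
      filter_upwards [ht.eventually hc'] with k hk
      rw [ct_eq hnone k] at hk
      refine le_trans ?_ hk
      push_cast
      rw [pow_succ]
      have : (0 : ℝ) < 4 ^ k := by positivity
      nlinarith
    have ht : Tendsto (fun k : ℕ => 2 * 4 ^ k) atTop atTop := by
      apply Tendsto.const_mul_atTop' (by norm_num)
      exact tendsto_pow_atTop_atTop_of_one_lt (by norm_num)
    exact ht.frequently hev.frequently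

/-! ### Transfer -/

section transfer

variable {X : Type} [MetricSpace X] {f : X → X} {x y : X}

lemma Phi_eq (δ : ℝ) :
    Phi f x y δ = liminf (fr fun k => dist (f^[k] x) (f^[k] y) < δ) atTop := rfl

lemma PhiStar_eq (δ : ℝ) :
    PhiStar f x y δ = limsup (fr fun k => dist (f^[k] x) (f^[k] y) < δ) atTop := rfl

lemma fr_mono {A B : ℕ → Prop} (h : ∀ n, A n → B n) (n : ℕ) : fr A n ≤ fr B n := by
  unfold fr
  have : (ct A (n + 1) : ℝ) ≤ ct B (n + 1) := by exact_mod_cast ct_mono h _
  exact div_le_div_of_nonneg_right this (Nat.cast_nonneg _)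

lemma Phi_mono : Monotone (Phi f x y) := by
  intro δ δ' h
  rw [Phi_eq, Phi_eq]
  exact liminf_le_liminf (Eventually.of_forall fun n => fr_mono (fun k hk => hk.trans_le h) n)
    (bdd_ge _) (cobdd_ge _)

lemma PhiStar_mono : Monotone (PhiStar f x y) := by
  intro δ δ' h
  rw [PhiStar_eq, PhiStar_eq]
  exact limsup_le_limsup (Eventually.of_forall fun n => fr_mono (fun k hk => hk.trans_le h) n)
    (cobdd_le _) (bdd_le _)

lemma Phi_nonneg (δ : ℝ) : 0 ≤ Phi f x y δ :=
  le_liminf (Eventually.of_forall fun n => fr_nonneg _ n)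

/-- no DC2 pair if the orbits are at positive distance with positive lower density -/
lemma not_DC2_of_PL {δ : ℝ} (hδ : 0 < δ) (hd : δ ≤ Metric.diam (univ : Set X))
    (h : PL fun k => ¬ dist (f^[k] x) (f^[k] y) < δ) : ¬ IsDC2Pair f x y := by
  rintro ⟨-, h1, -⟩
  have := h1 δ hδ hd
  rw [PhiStar_eq] at this
  exact absurd this (limsup_lt_one h).ne

lemma not_DC2_of_Z (h : ∀ ε, 0 < ε → Z fun k => ¬ dist (f^[k] x) (f^[k] y) < ε) :
    ¬ IsDC2Pair f x y := by
  rintro ⟨-, -, ε, hε, -, h2⟩
  rw [Phi_eq] at h2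
  exact absurd (one_le_liminf (h ε hε)) (not_le.2 h2)

end transfer

/-- There are a dendrite `X` and a continuous `f : X → X` with an uncountable DC2½ set and without
DC2 pairs. -/
theorem result : ∃ (X : Type) (_ : MetricSpace X) (f : X → X), IsDendrite X ∧ Continuous f ∧
    (∃ S : Set X, ¬ S.Countable ∧ ∀ x ∈ S, ∀ y ∈ S, x ≠ y → IsDC25Pair f x y) ∧
    (∀ x y : X, ¬ IsDC2Pair f x y) := by
  haveI : CompactSpace Y := isCompact_iff_compactSpace.1 Y_closed.isCompact
  haveI : Nonempty Y := ⟨⟨pt fun _ => false, pt_mem _⟩⟩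
  let F : Y → Y := fun z => ⟨G z.1, G_mem z.2⟩
  have hF : ∀ y z, (um Y).l (F y) (F z) ≤ 2 * (um Y).l y z := by
    intro y z
    change ld (G y.1) (G z.1) ≤ 2 * ld y.1 z.1
    apply ld_map
    intro n h i hi
    simp only [G]
    rw [h (i + 1) (by omega)]
    split_ifs
    · rfl
    · rw [h (i - 1) (by omega)]
  have hFk : ∀ (k : ℕ) (z : Y), (F^[k] z).1 = G^[k] z.1 := by
    intro k z
    induction k with
    | zero => rfl
    | succ k ih =>
      rw [Function.iterate_succ_apply', Function.iterate_succ_apply', ← ih]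
  obtain ⟨X, hX, f, ι, o, hD, hfc, hdist, hdo, hfo, hfι, hd2, hall⟩ :=
    exists_dendrite (um Y) F hF
  have hιk : ∀ (k : ℕ) (z : Y), f^[k] (ι z) = ι (F^[k] z) := by
    intro k z
    induction k with
    | zero => rfl
    | succ k ih => rw [Function.iterate_succ_apply', ih, hfι, Function.iterate_succ_apply']
  have hdk : ∀ (k : ℕ) (z z' : Y), dist (f^[k] (ι z)) (f^[k] (ι z')) =
      2 * ld (G^[k] z.1) (G^[k] z'.1) := by
    intro k z z'
    rw [hιk, hιk, hdist, ← hFk, ← hFk]
    rfl
  have hok : ∀ k : ℕ, f^[k] o = o := fun k => Function.iterate_fixed hfo k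
  -- the diameter
  have hbd : Bornology.IsBounded (univ : Set X) :=
    Metric.isBounded_iff.2 ⟨2, fun x _ y _ => hd2 x y⟩
  have hdiam : 1 ≤ Metric.diam (univ : Set X) := by
    rw [← hdo (Classical.arbitrary Y)]
    exact Metric.dist_le_diam_of_mem hbd (mem_univ _) (mem_univ _)
  have hιinj : Function.Injective ι := by
    intro z z' h
    have h1 : dist (ι z) (ι z') = 0 := by rw [h, dist_self]
    rw [hdist] at h1
    apply Subtype.ext
    by_contra hne
    obtain ⟨m, hm, -, -⟩ := ld_exists hne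
    have h2 : (um Y).l z z' = (1 / 2) ^ m := hm
    rw [h2] at h1
    have : (0 : ℝ) < (1 / 2) ^ m := by positivity
    linarith
  refine ⟨X, hX, f, hD, hfc, ?_, ?_⟩
  · let p : (ℕ → Bool) → X := fun α => ι ⟨pt α, pt_mem α⟩
    have hp : Function.Injective p := fun α β h =>
      pt_injective (congrArg Subtype.val (hιinj h))
    refine ⟨range p, ?_, ?_⟩
    · intro hc
      have h1 : Countable (range p) := hc.to_subtype
      have h2 : Countable (ℕ → Bool) :=
        (Function.Injective.countable (f := fun α => (⟨p α, α, rfl⟩ : range p))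
          fun α β h => hp (congrArg Subtype.val h))
      obtain ⟨e, he⟩ := exists_surjective_nat (ℕ → Bool)
      obtain ⟨n, hn⟩ := he fun n => !(e n n)
      have := congrFun hn n
      simp at this
    · rintro _ ⟨α, rfl⟩ _ ⟨β, rfl⟩ hne
      have hαβ : α ≠ β := fun h => hne (by rw [h])
      set E : ℕ → Prop := fun k => (pt α k).2 ≠ (pt β k).2 with hE
      obtain ⟨s, hs, hosc⟩ := oscillate hαβ (E := E) fun k => Iff.rfl
      obtain ⟨hf1, hf2⟩ := hosc (s / 10) (by positivity)
      refine ⟨hne, _, _, Phi_mono.tendsto_nhdsGT 0, PhiStar_mono.tendsto_nhdsGT 0, ?_⟩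
      have hA1 : ∀ k, dist (f^[k] (p α)) (f^[k] (p β)) < 1 → k < 1 ∨ ¬ E k := by
        intro k hk
        rcases lt_or_ge k 1 with h | h
        · exact Or.inl h
        right
        have h1 : ld (G^[k] (pt α)) (G^[k] (pt β)) ≤ (1 / 2) ^ 1 := by
          have := hdk k ⟨pt α, pt_mem α⟩ ⟨pt β, pt_mem β⟩
          simp only at this
          rw [this] at hk
          linarith
        rw [ld_iter_le h] at h1
        have := h1 0 (by norm_num)
        rw [zero_add] at this
        exact not_not.2 this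
      have ha : sInf (Phi f (p α) (p β) '' Ioi 0) ≤ 1 - 2 * (s - s / 10) + s / 10 := by
        have hbb : BddBelow (Phi f (p α) (p β) '' Ioi 0) := by
          refine ⟨0, ?_⟩
          rintro _ ⟨δ, -, rfl⟩
          exact Phi_nonneg δ
        refine (csInf_le hbb (mem_image_of_mem _ (mem_Ioi.2 one_pos))).trans ?_
        rw [Phi_eq]
        apply liminf_le
        obtain ⟨M, hM⟩ := exists_nat_ge (3 / (s / 10))
        have hf3 : ∃ᶠ n : ℕ in atTop, 2 * (s - s / 10) * (n + 1 : ℕ) ≤ ct E (n + 1) := by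
          rw [frequently_atTop] at hf2 ⊢
          intro a
          obtain ⟨b, hb, hb'⟩ := hf2 (a + 1)
          refine ⟨b - 1, by omega, ?_⟩
          rw [Nat.sub_add_cancel (by omega)]
          exact hb'
        refine (hf3.and_eventually (eventually_ge_atTop (M + 1))).mono ?_
        rintro n ⟨h1, h2⟩
        have hn : (0 : ℝ) < n := by
          have : 0 < n := by omega
          exact_mod_cast this
        have h3 : ct (fun k => dist (f^[k] (p α)) (f^[k] (p β)) < 1) (n + 1) + ct E (n + 1) ≤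
            n + 2 := by
          have e1 := (ct_mono hA1 (n + 1)).trans (ct_or _ _ _)
          have e2 : ct (fun k => k < 1) (n + 1) ≤ 1 := by
            classical
            calc ct (fun n => n < 1) (n + 1) ≤ (Finset.range 1).card :=
                  Finset.card_le_card fun k hk => by
                    simp only [Finset.mem_filter, Finset.mem_range] at hk ⊢
                    exact hk.2
              _ = 1 := Finset.card_range _
          have e3 := ct_not E (n + 1)
          omega
        have h4 : (ct (fun k => dist (f^[k] (p α)) (f^[k] (p β)) < 1) (n + 1) : ℝ) +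
            ct E (n + 1) ≤ n + 2 := by exact_mod_cast h3
        unfold fr
        rw [div_le_iff₀ hn]
        have h5 : (M : ℝ) ≤ n := by
          have : M ≤ n := by omega
          exact_mod_cast this
        rw [div_le_iff₀ (by positivity)] at hM
        push_cast at h1
        nlinarith
      have hb : 1 - (s + s / 10) - s / 10 ≤ sInf (PhiStar f (p α) (p β) '' Ioi 0) := by
        refine le_csInf ⟨PhiStar f (p α) (p β) 1, mem_image_of_mem _ (mem_Ioi.2 one_pos)⟩ ?_
        rintro _ ⟨δ, hδ, rfl⟩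
        obtain ⟨L, hL⟩ := exists_pow_lt_of_lt_one (half_pos (show (0 : ℝ) < δ from hδ))
          (by norm_num : (1 / 2 : ℝ) < 1)
        rw [PhiStar_eq]
        apply le_limsup
        have hB : ∀ k, ¬ dist (f^[k] (p α)) (f^[k] (p β)) < δ →
            E k ∨ ((∃ i < L, g (k + i + 1) ≠ g (k + i)) ∨ k < L) := by
          intro k hk
          by_contra hcon
          push Not at hcon
          obtain ⟨c1, c2, c3⟩ := hcon
          apply hk
          have h1 : ld (G^[k] (pt α)) (G^[k] (pt β)) ≤ (1 / 2) ^ L := by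
            rw [ld_iter_le c3]
            intro i hi
            have c2' : ¬ ∃ i < L, g (k + i + 1) ≠ g (k + i) := by push Not; exact c2
            have c1' : (pt α k).2 = (pt β k).2 := not_not.1 c1
            rw [pt_snd, pt_snd] at c1'
            rw [pt_snd, pt_snd, add_comm i k, window_of_le c2' hi.le, c1']
          have := hdk k ⟨pt α, pt_mem α⟩ ⟨pt β, pt_mem β⟩
          simp only at this
          rw [this]
          linarith
        have hZ : Z fun k => (∃ i < L, g (k + i + 1) ≠ g (k + i)) ∨ k < L :=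
          (Z_window L).or (Z_finite L)
        have hf3 : ∃ᶠ n : ℕ in atTop, (ct E (n + 1) : ℝ) ≤ (s + s / 10) * (n + 1 : ℕ) := by
          rw [frequently_atTop] at hf1 ⊢
          intro a
          obtain ⟨b, hb, hb'⟩ := hf1 (a + 1)
          refine ⟨b - 1, by omega, ?_⟩
          rw [Nat.sub_add_cancel (by omega)]
          exact hb'
        have hZ' := (tendsto_add_atTop_nat 1).eventually (hZ (s / 10) (by positivity))
        refine (hf3.and_eventually (hZ'.and (eventually_ge_atTop 1))).mono ?_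
        rintro n ⟨h1, h2, h3⟩
        have hn : (0 : ℝ) < n := by exact_mod_cast h3
        have h4 := (ct_mono hB (n + 1)).trans (ct_or _ _ _)
        have h5 := ct_not (fun k => dist (f^[k] (p α)) (f^[k] (p β)) < δ) (n + 1)
        have h4' : (ct (fun k => ¬ dist (f^[k] (p α)) (f^[k] (p β)) < δ) (n + 1) : ℝ) ≤
            ct E (n + 1) + ct (fun k => (∃ i < L, g (k + i + 1) ≠ g (k + i)) ∨ k < L) (n + 1) := by
          exact_mod_cast h4
        have h5' : (ct (fun k => dist (f^[k] (p α)) (f^[k] (p β)) < δ) (n + 1) : ℝ) +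
            ct (fun k => ¬ dist (f^[k] (p α)) (f^[k] (p β)) < δ) (n + 1) = n + 1 := by
          exact_mod_cast h5
        unfold fr
        rw [le_div_iff₀ hn]
        push_cast at h1 h2
        have h6 : (0 : ℝ) ≤ ct (fun k => dist (f^[k] (p α)) (f^[k] (p β)) < δ) (n + 1) :=
          Nat.cast_nonneg _
        by_cases h7 : 1 - (s + s / 10) - s / 10 ≤ 0
        · nlinarith
        · push Not at h7
          nlinarith
      refine lt_of_le_of_lt ha (lt_of_lt_of_le ?_ hb)
      linarith
  · intro x y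
    -- at least one point outside of `ι Y`
    have key1 : ∀ (x y : X), (∃ k, f^[k] x = o) → (∃ z, y = ι z) → ∀ N : ℕ,
        (∃ k₀, ∀ k ≥ k₀, dist (f^[k] x) (f^[k] y) = 1) := by
      rintro x y ⟨k, hk⟩ ⟨z, rfl⟩ -
      refine ⟨k, fun n hn => ?_⟩
      obtain ⟨d, rfl⟩ : ∃ d, n = d + k := ⟨n - k, by omega⟩
      rw [Function.iterate_add_apply f d k x, hk, hok, hιk, dist_comm, hdo]
    have key2 : ∀ (x y : X), (∃ k₀, ∀ k ≥ k₀, dist (f^[k] x) (f^[k] y) = 1) →
        ¬ IsDC2Pair f x y := by
      rintro x y ⟨k₀, hk₀⟩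
      apply not_DC2_of_PL one_pos hdiam
      refine PL.sub (A := fun _ => True) ⟨1, one_pos, Eventually.of_forall fun T => ?_⟩
        (Z_finite k₀) fun k _ => ?_
      · classical
        unfold ct
        simp
      · rcases lt_or_ge k k₀ with h | h
        · exact Or.inr h
        · left; rw [hk₀ k h]; exact lt_irrefl _
    rcases hall x with ⟨z, rfl⟩ | hx
    · rcases hall y with ⟨z', rfl⟩ | hy
      · rcases dichotomy z.2 z'.2 with h | h
        · apply not_DC2_of_Z
          intro ε hε
          obtain ⟨L, hL⟩ := exists_pow_lt_of_lt_one (half_pos hε) (by norm_num : (1 / 2 : ℝ) < 1)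
          refine (h L).eventually (n₀ := L) fun k hk hne hw => hne ?_
          rw [hdk]
          have := (ld_iter_le (z := z.1) (z' := z'.1) hk).2 hw
          linarith
        · apply not_DC2_of_PL one_pos hdiam
          refine h.sub (Z_finite 1) fun k hk => ?_
          rcases lt_or_ge k 1 with h | h
          · exact Or.inr h
          left
          intro hlt
          apply hk
          rw [hdk] at hlt
          have h1 : ld (G^[k] z.1) (G^[k] z'.1) ≤ (1 / 2) ^ 1 := by linarith
          rw [ld_iter_le h] at h1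
          have := h1 0 (by norm_num)
          rwa [zero_add] at this
      · obtain ⟨k₀, hk₀⟩ := key1 y (ι z) hy ⟨z, rfl⟩ 0
        exact key2 _ _ ⟨k₀, fun k hk => by rw [dist_comm]; exact hk₀ k hk⟩
    · rcases hall y with ⟨z', rfl⟩ | hy
      · exact key2 _ _ (key1 x (ι z') hx ⟨z', rfl⟩ 0)
      · obtain ⟨a, ha⟩ := hx
        obtain ⟨b, hb⟩ := hy
        apply not_DC2_of_Z
        intro ε hε
        refine (Z_finite (a + b)).mono fun k hk => ?_
        by_contra hcon
        push Not at hcon
        apply hk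
        obtain ⟨d, rfl⟩ : ∃ d, k = d + (a + b) := ⟨k - (a + b), by omega⟩
        have e1 : f^[d + (a + b)] x = o := by
          rw [show d + (a + b) = (d + b) + a by ring, Function.iterate_add_apply, ha, hok]
        have e2 : f^[d + (a + b)] y = o := by
          rw [show d + (a + b) = (d + a) + b by ring, Function.iterate_add_apply, hb, hok]
        rw [e1, e2, dist_self]
        exact hε

end Pool.Agent.Results.MP_fd67f7_an.NoDC2Pair
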